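import Pool.Agent.Helper31.TW.St3

set_option autoImplicit false

/-! Project TW, module COR. -/

namespace Pool.Agent.Helper8.TW

open Pool.Agent.Helper31.TW

lemma clip_aux (D0 K1 B : ℕ) (hD0 : 1 ≤ D0) (A a a' : ℤ) (hA : |A| ≤ (B : ℤ))
    (h : clip (D0 * (K1 + 1) + B) (A + (D0 : ℤ) * a) = clip (D0 * (K1 + 1) + B) (A + (D0 : ℤ) * a')) :
    clip K1 a = clip K1 a' := by
  have hA1 := (abs_le.1 hA).1
  have hA2 := (abs_le.1 hA).2
  have hD : (0 : ℤ) < (D0 : ℤ) := by exact_mod_cast hD0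
  unfold clip at h
  push_cast at h
  have hW : (0 : ℤ) < (D0 : ℤ) * ((K1 : ℤ) + 1) := by positivity
  generalize hWe : (D0 : ℤ) * ((K1 : ℤ) + 1) = W at h hW
  have h1 : ((D0 : ℤ) * a = (D0 : ℤ) * a') ∨ (W ≤ (D0 : ℤ) * a ∧ W ≤ (D0 : ℤ) * a') ∨
      ((D0 : ℤ) * a ≤ -W ∧ (D0 : ℤ) * a' ≤ -W) := by
    generalize (D0 : ℤ) * a = U at h
    generalize (D0 : ℤ) * a' = U' at h
    omega
  rcases h1 with h1 | ⟨h1, h2⟩ | ⟨h1, h2⟩
  · rw [mul_left_cancel₀ (ne_of_gt hD) h1]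
  · rw [← hWe] at h1 h2
    have e1 := le_of_mul_le_mul_left h1 hD
    have e2 := le_of_mul_le_mul_left h2 hD
    unfold clip
    omega
  · rw [← hWe, ← mul_neg] at h1 h2
    have e1 := le_of_mul_le_mul_left h1 hD
    have e2 := le_of_mul_le_mul_left h2 hD
    unfold clip
    omega

lemma str_aux {n : ℕ} (S : Set (Fin n → ℕ)) (D0 : ℕ) (hD0 : 1 ≤ D0) (ρ : Fin n → ℕ) (T : Set (Fin n → ℕ))
    (hT : ∀ t, t ∈ T ↔ ρ + D0 • t ∈ S) (hS : Str S) : Str T := by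
  intro c q hq
  obtain ⟨R, hR1, hR2⟩ := hS (ρ + D0 • c) (fun j => D0 • q j) (by
    intro j h0
    apply hq j
    funext i
    have h1 : (D0 • q j) i = 0 := congrFun h0 i
    have h2 : D0 * q j i = 0 := h1
    rcases Nat.mul_eq_zero.1 h2 with h3 | h3
    · omega
    · exact h3)
  refine ⟨R, hR1, ?_⟩
  intro k
  rw [← hR2 k, hT]
  have e : ρ + D0 • (c + ∑ j, k j • q j) = ρ + D0 • c + ∑ j, k j • (D0 • q j) := by
    rw [smul_add, ← add_assoc, Finset.smul_sum]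
    congr 1
    apply Finset.sum_congr rfl
    intro j _
    rw [smul_comm]
  rw [e]

theorem hCOR (hNQE : StNQE) (hLIMa : StLIMa) : StCOR := by
  intro n S hsl hS hSc
  obtain ⟨D0, hD0, hN⟩ := hNQE n S hsl
  have key : ∀ ρ : Fin n → ℕ, ∃ M : (Fin n → ℤ) → Prop, (∀ t : Fin n → ℕ, (ρ + D0 • t ∈ S ↔ M (toZ t))) ∧
      ∃ D : ℕ, 1 ≤ D ∧ ∀ τ : Fin n → ℤ, ∃ K' : ℕ, 1 ≤ K' ∧ ∃ E : Finset (Fin n → ℤ),
    (∀ α ∈ E, ∀ β ∈ E, α ≠ β → ¬ ∃ y : Fin n → ℤ, Pos y ∧ dot α y = 0 ∧ dot β y = 0) ∧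
    ∀ x x' : Fin n → ℤ, (∀ i, (K' : ℤ) ≤ x i ∧ (K' : ℤ) ≤ x' i) →
      (∀ i, (D : ℤ) ∣ x i - τ i ∧ (D : ℤ) ∣ x' i - τ i) →
      (∀ α ∈ E, clip K' (dot α x) = clip K' (dot α x')) → (M x ↔ M x') := by
    intro ρ
    obtain ⟨M, 𝓐, K, hdep, hnrm, hM⟩ := hN ρ
    refine ⟨M, hM, ?_⟩
    refine hLIMa n M 𝓐 K ⟨hdep, hnrm, ?_, ?_⟩
    · refine str_aux S D0 hD0 ρ _ ?_ hS
      intro t
      exact (hM t).symm
    · refine str_aux Sᶜ D0 hD0 ρ _ ?_ hSc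
      intro t
      exact not_congr (hM t).symm
  choose M hM D1 hD1 hL using key
  set P : ℕ := ∏ r : Fin n → Fin D0, D1 (fun i => ((r i : Fin D0) : ℕ)) with hP
  have hPpos : 1 ≤ P := by
    rw [hP]
    exact Nat.succ_le_of_lt (Finset.prod_pos (fun r _ => hD1 _))
  refine ⟨D0 * P, Nat.mul_pos hD0 hPpos, ?_⟩
  intro ρ
  have hdvd : D1 (fun i => ρ i % D0) ∣ P := by
    have := Finset.dvd_prod_of_mem (fun r : Fin n → Fin D0 => D1 (fun i => ((r i : Fin D0) : ℕ)))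
      (Finset.mem_univ (fun i => (⟨ρ i % D0, Nat.mod_lt _ hD0⟩ : Fin D0)))
    exact this
  obtain ⟨K1, hK1, E, hE, hdep⟩ := hL (fun i => ρ i % D0) (toZ (fun i => ρ i / D0))
  refine ⟨D0 * (K1 + 1) + ∑ α ∈ E, (dot α (toZ (fun i => ρ i % D0))).natAbs, E, hE, ?_⟩
  intro x x' hx hcl
  -- decomposition
  have dec : ∀ z : Fin n → ℕ, (∀ i, z i % (D0 * P) = ρ i % (D0 * P)) →
      z = (fun i => ρ i % D0) + D0 • (fun i => z i / D0) := by
    intro z hz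
    funext i
    have h1 : z i % D0 = ρ i % D0 := by
      rw [← Nat.mod_mul_right_mod (z i) D0 P, ← Nat.mod_mul_right_mod (ρ i) D0 P, hz i]
    show z i = ρ i % D0 + D0 * (z i / D0)
    rw [← h1]
    exact (Nat.mod_add_div (z i) D0).symm
  have dv : ∀ z : Fin n → ℕ, (∀ i, z i % (D0 * P) = ρ i % (D0 * P)) →
      ∀ i, (D1 (fun i => ρ i % D0) : ℤ) ∣ toZ (fun i => z i / D0) i - toZ (fun i => ρ i / D0) i := by
    intro z hz i
    have h0 : ((D0 * P : ℕ) : ℤ) ∣ (z i : ℤ) - (ρ i : ℤ) :=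
      (Nat.modEq_iff_dvd.1 (show ρ i ≡ z i [MOD D0 * P] from (hz i).symm))
    have h1 : (z i : ℤ) = ((ρ i % D0 : ℕ) : ℤ) + (D0 : ℤ) * ((z i / D0 : ℕ) : ℤ) := by
      have := congrFun (dec z hz) i
      have h2 : z i = ρ i % D0 + D0 * (z i / D0) := this
      exact_mod_cast h2
    have h2 : (ρ i : ℤ) = ((ρ i % D0 : ℕ) : ℤ) + (D0 : ℤ) * ((ρ i / D0 : ℕ) : ℤ) := by
      have h3 : ρ i = ρ i % D0 + D0 * (ρ i / D0) := (Nat.mod_add_div (ρ i) D0).symm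
      exact_mod_cast h3
    have h3 : (z i : ℤ) - (ρ i : ℤ) = (D0 : ℤ) * (((z i / D0 : ℕ) : ℤ) - ((ρ i / D0 : ℕ) : ℤ)) := by
      rw [h1, h2]
      ring
    rw [h3, Nat.cast_mul] at h0
    have hD : (D0 : ℤ) ≠ 0 := by
      have : D0 ≠ 0 := by omega
      exact_mod_cast this
    have h4 := (mul_dvd_mul_iff_left hD).1 h0
    exact dvd_trans (Int.natCast_dvd_natCast.2 hdvd) h4
  have dotd : ∀ z : Fin n → ℕ, (∀ i, z i % (D0 * P) = ρ i % (D0 * P)) → ∀ α : Fin n → ℤ,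
      frm α z = dot α (toZ (fun i => ρ i % D0)) + (D0 : ℤ) * dot α (toZ (fun i => z i / D0)) := by
    intro z hz α
    have h1 : ∀ i, (z i : ℤ) = ((ρ i % D0 : ℕ) : ℤ) + (D0 : ℤ) * ((z i / D0 : ℕ) : ℤ) := by
      intro i
      have := congrFun (dec z hz) i
      have h2 : z i = ρ i % D0 + D0 * (z i / D0) := this
      exact_mod_cast h2
    unfold frm dot
    rw [Finset.mul_sum, ← Finset.sum_add_distrib]
    apply Finset.sum_congr rfl
    intro i _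
    have e : (z i : ℤ) = toZ (fun i => ρ i % D0) i + (D0 : ℤ) * toZ (fun i => z i / D0) i := h1 i
    rw [e]
    ring
  have hge : ∀ z : Fin n → ℕ, (∀ i, D0 * (K1 + 1) ≤ z i) → ∀ i, (K1 : ℤ) ≤ toZ (fun i => z i / D0) i := by
    intro z hz i
    show (K1 : ℤ) ≤ ((z i / D0 : ℕ) : ℤ)
    have h1 : K1 + 1 ≤ z i / D0 := by
      rw [Nat.le_div_iff_mul_le hD0, mul_comm]
      exact hz i
    have h2 : K1 ≤ z i / D0 := by omega
    exact_mod_cast h2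
  have hxm : ∀ i, x i % (D0 * P) = ρ i % (D0 * P) := fun i => (hx i).2.2.1
  have hxm' : ∀ i, x' i % (D0 * P) = ρ i % (D0 * P) := fun i => (hx i).2.2.2
  have hfin : M (fun i => ρ i % D0) (toZ (fun i => x i / D0)) ↔ M (fun i => ρ i % D0) (toZ (fun i => x' i / D0)) := by
    apply hdep
    · intro i
      refine ⟨hge x (fun i => ?_) i, hge x' (fun i => ?_) i⟩
      · exact le_trans (Nat.le_add_right _ _) (hx i).1
      · exact le_trans (Nat.le_add_right _ _) (hx i).2.1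
    · intro i
      exact ⟨dv x hxm i, dv x' hxm' i⟩
    · intro α hα
      have h1 := hcl α hα
      rw [dotd x hxm α, dotd x' hxm' α] at h1
      refine clip_aux D0 K1 (∑ α ∈ E, (dot α (toZ (fun i => ρ i % D0))).natAbs) hD0 _ _ _ ?_ h1
      rw [Int.abs_eq_natAbs]
      have h2 : (dot α (toZ (fun i => ρ i % D0))).natAbs ≤ ∑ α ∈ E, (dot α (toZ (fun i => ρ i % D0))).natAbs :=
        Finset.single_le_sum (f := fun α => (dot α (toZ (fun i => ρ i % D0))).natAbs) (fun _ _ => Nat.zero_le _) hα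
      exact_mod_cast h2
  rw [← hM (fun i => ρ i % D0) (fun i => x i / D0), ← hM (fun i => ρ i % D0) (fun i => x' i / D0),
    ← dec x hxm, ← dec x' hxm'] at hfin
  exact hfin

end Pool.Agent.Helper8.TW
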