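import Pool.Agent.Helper8.TW.M_WFS

/-! Modules WFB, WFJ and WFP of project TW: multiplication of weights by primes. -/

set_option autoImplicit false

noncomputable section

namespace Pool.Agent.Helper8.TW

open Finset Filter Topology
open Pool.Agent.Helper9.TW

/-- multiplication by one prime -/
theorem cc_mul_prime (p : ℕ) (hp : p.Prime) (f g : ℕ → ℝ) (hg : ∀ v, g v ≠ 0 → ¬ p ∣ v) (q : ℕ) :
    (if p ∣ q then cc f g (q / p) else 0) = cc (fun m => if p ∣ m then f (m / p) else 0) g q := by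
  by_cases hpq : p ∣ q
  · rw [if_pos hpq]
    obtain ⟨k, rfl⟩ := hpq
    rw [Nat.mul_div_cancel_left k hp.pos]
    unfold cc
    refine Finset.sum_bij_ne_zero (fun x _ _ => (p * x.1, x.2)) ?_ ?_ ?_ ?_
    · rintro ⟨u, v⟩ h1 h2
      simp only [mem_filter, Nat.mem_divisorsAntidiagonal] at h1 ⊢
      have hv := hg v (right_ne_zero_of_mul h2)
      refine ⟨⟨?_, mul_ne_zero hp.ne_zero h1.1.2⟩, ?_⟩
      · rw [mul_assoc, h1.1.1]
      · exact Nat.Coprime.mul_left ((Nat.Prime.coprime_iff_not_dvd hp).mpr hv) h1.2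
    · rintro ⟨u, v⟩ h1 h2 ⟨u', v'⟩ h1' h2' heq
      simp only [Prod.mk.injEq] at heq
      rw [Nat.eq_of_mul_eq_mul_left hp.pos heq.1, heq.2]
    · rintro ⟨u, v⟩ h1 h2
      simp only [mem_filter, Nat.mem_divisorsAntidiagonal] at h1
      have hu : p ∣ u := by
        by_contra h
        apply h2
        simp [h]
      obtain ⟨w, rfl⟩ := hu
      have hw : w * v = k := by
        have := h1.1.1
        rw [mul_assoc] at this
        exact Nat.eq_of_mul_eq_mul_left hp.pos this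
      have hk : k ≠ 0 := fun h => h1.1.2 (by rw [h, mul_zero])
      refine ⟨(w, v), ?_, ?_, rfl⟩
      · simp only [mem_filter, Nat.mem_divisorsAntidiagonal]
        exact ⟨⟨hw, hk⟩, Nat.Coprime.coprime_mul_left h1.2⟩
      · simp only [dvd_mul_right, if_true, Nat.mul_div_cancel_left w hp.pos] at h2
        exact h2
    · rintro ⟨u, v⟩ h1 h2
      simp only [dvd_mul_right, if_true, Nat.mul_div_cancel_left u hp.pos]
  · rw [if_neg hpq]
    unfold cc
    symm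
    apply Finset.sum_eq_zero
    rintro ⟨u, v⟩ h1
    simp only [mem_filter, Nat.mem_divisorsAntidiagonal] at h1
    have hu : ¬ p ∣ u := by
      intro h
      apply hpq
      rw [← h1.1.1]
      exact Dvd.dvd.mul_right h v
    simp [hu]

theorem cc_sum_left {κ : Type} (s : Finset κ) (f : κ → ℕ → ℝ) (g : ℕ → ℝ) (q : ℕ) :
    ∑ p ∈ s, cc (f p) g q = cc (fun m => ∑ p ∈ s, f p m) g q := by
  unfold cc
  rw [Finset.sum_comm]
  refine Finset.sum_congr rfl fun x _ => ?_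
  rw [Finset.sum_mul]

/-- multiplication by a set of primes -/
theorem Dec_mul (P P' : ℕ → Prop) (S : Finset ℕ) (t M₀ N B : ℝ) (T : ℕ) (l : ℕ → ℝ) (hB : 0 ≤ B)
    (ht : 0 ≤ t) (hS : ∀ p ∈ S, p.Prime ∧ (p : ℝ) ≤ t)
    (hi : ∀ m, P m → ∀ p ∈ S, ¬ p ∣ m) (hii : ∀ m, P m → ∀ p ∈ S, P' (p * m))
    (hiii : ∀ m, P m → P' m) (h : Dec P M₀ N T B l) :
    Dec P' (M₀ * t) N T B (fun q => ∑ p ∈ S.filter (fun p => p ∣ q), l (q / p)) := by
  obtain ⟨al, be, e1, e2, e3, e4⟩ := h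
  refine ⟨fun s m => ∑ p ∈ S.filter (fun p => p ∣ m), al s (m / p), be, ?_, ?_, ?_, ?_⟩
  · intro s m
    refine ⟨?_, (e1 s m).2⟩
    show |∑ p ∈ S.filter (fun p => p ∣ m), al s (m / p)| ≤ B
    by_cases hex : ∃ p ∈ S.filter (fun p => p ∣ m), al s (m / p) ≠ 0
    · obtain ⟨p₀, hp₀, hne⟩ := hex
      rw [Finset.sum_eq_single p₀]
      · exact (e1 s _).1
      · intro p hp hpp
        by_contra h0
        simp only [mem_filter] at hp hp₀
        have h1 := hi _ (e2 s _ h0).1 p₀ hp₀.1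
        apply h1
        have h2 : p₀ ∣ p * (m / p) := by rw [Nat.mul_div_cancel' hp.2]; exact hp₀.2
        rcases ((hS p₀ hp₀.1).1.dvd_mul).mp h2 with h3 | h3
        · exact absurd ((Nat.prime_dvd_prime_iff_eq (hS p₀ hp₀.1).1 (hS p hp.1).1).mp h3).symm hpp
        · exact h3
      · intro h; exact absurd hp₀ h
    · push Not at hex
      rw [Finset.sum_eq_zero hex, abs_zero]
      exact hB
  · intro s m hm
    obtain ⟨p, hp, hne⟩ := Finset.exists_ne_zero_of_sum_ne_zero hm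
    simp only [mem_filter] at hp
    have h1 := e2 s _ hne
    have h2 : p * (m / p) = m := Nat.mul_div_cancel' hp.2
    refine ⟨?_, ?_⟩
    · rw [← h2]
      exact hii _ h1.1 p hp.1
    · rw [← h2]
      push_cast
      rw [mul_comm M₀]
      exact mul_le_mul (hS p hp.1).2 h1.2 (Nat.cast_nonneg _) ht
  · intro s m hm
    exact ⟨hiii m (e3 s m hm).1, (e3 s m hm).2⟩
  · intro q
    show ∑ p ∈ S.filter (fun p => p ∣ q), l (q / p) = _
    have h1 : ∀ s m, ∑ p ∈ S.filter (fun p => p ∣ m), al s (m / p) =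
        ∑ p ∈ S, (if p ∣ m then al s (m / p) else 0) := by
      intro s m
      rw [Finset.sum_filter]
    simp only [h1]
    rw [Finset.sum_filter]
    have h2 : ∀ p ∈ S, (if p ∣ q then l (q / p) else 0) =
        ∑ s ∈ range T, cc (fun m => if p ∣ m then al s (m / p) else 0) (be s) q := by
      intro p hp
      rw [e4 (q / p)]
      by_cases hpq : p ∣ q
      · rw [if_pos hpq]
        refine Finset.sum_congr rfl fun s _ => ?_
        rw [← cc_mul_prime p (hS p hp).1 (al s) (be s) (fun v hv => hi v (e3 s v hv).1 p hp) q,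
          if_pos hpq]
      · rw [if_neg hpq]
        symm
        apply Finset.sum_eq_zero
        intro s _
        rw [← cc_mul_prime p (hS p hp).1 (al s) (be s) (fun v hv => hi v (e3 s v hv).1 p hp) q,
          if_neg hpq]
    rw [Finset.sum_congr rfl h2, Finset.sum_comm]
    refine Finset.sum_congr rfl fun s _ => ?_
    exact cc_sum_left S (fun p m => if p ∣ m then al s (m / p) else 0) (be s) q

theorem mem_bx {a : ℕ} {ω : ℝ} {i p : ℕ} (hp : p ∈ bx a ω i) :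
    p.Prime ∧ (a : ℝ) ^ ((i : ℝ) * ω) ≤ (p : ℝ) ∧ ¬ p ∣ a ∧
      (p : ℝ) < (a : ℝ) ^ (((i : ℝ) + 1) * ω) := by
  unfold bx at hp
  simp only [mem_filter, mem_range] at hp
  exact ⟨hp.2.1, hp.2.2.1, hp.2.2.2, Nat.lt_ceil.mp hp.1⟩

theorem mem_Pr {a : ℕ} {ω : ℝ} {j0 j p : ℕ} :
    p ∈ Pr a ω j0 j ↔ ∃ i, j0 ≤ i ∧ i < j ∧ p ∈ bx a ω i := by
  unfold Pr
  simp only [mem_biUnion, mem_Ico]
  constructor
  · rintro ⟨i, h1, h2⟩
    exact ⟨i, h1.1, h1.2, h2⟩
  · rintro ⟨i, h1, h2, h3⟩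
    exact ⟨i, ⟨h1, h2⟩, h3⟩

/-- primes of higher boxes do not divide the products of the lower ones -/
theorem not_dvd_Sp {a : ℕ} {ω : ℝ} {j0 j j' m p : ℕ} (ha : 1 ≤ a) (hω : 0 < ω) (hj : j ≤ j')
    (hm : Sp a ω j0 j m) (hp : p ∈ bx a ω j') : ¬ p ∣ m := by
  intro h
  have ha1 : (1 : ℝ) ≤ a := by exact_mod_cast ha
  obtain ⟨i, _, hij, hpi⟩ := mem_Pr.mp (hm.2 p (mem_bx hp).1 h)
  have h1 := (mem_bx hpi).2.2.2
  have h2 := (mem_bx hp).2.1
  have h3 : (a : ℝ) ^ (((i : ℝ) + 1) * ω) ≤ (a : ℝ) ^ ((j' : ℝ) * ω) := by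
    apply Real.rpow_le_rpow_of_exponent_le ha1
    apply mul_le_mul_of_nonneg_right _ hω.le
    have : i + 1 ≤ j' := by omega
    exact_mod_cast this
  linarith

theorem Sp_mul {a : ℕ} {ω : ℝ} {j0 j m p : ℕ} (ha : 1 ≤ a) (hω : 0 < ω) (hj : j0 ≤ j)
    (hm : Sp a ω j0 j m) (hp : p ∈ bx a ω j) : Sp a ω j0 (j + 1) (p * m) := by
  have hnd := not_dvd_Sp ha hω le_rfl hm hp
  have hpp := (mem_bx hp).1
  have hcop : Nat.Coprime p m := (Nat.Prime.coprime_iff_not_dvd hpp).mpr hnd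
  refine ⟨(Nat.squarefree_mul hcop).mpr ⟨hpp.prime.squarefree, hm.1⟩, ?_⟩
  intro p' hp' hd
  rcases (hp'.dvd_mul).mp hd with h | h
  · rw [(Nat.prime_dvd_prime_iff_eq hp' hpp).mp h]
    exact mem_Pr.mpr ⟨j, hj, by omega, hp⟩
  · exact Pr_mono a ω j0 (by omega) (hm.2 p' hp' h)

theorem mem_Pr_Rg {a : ℕ} {ω : ℝ} {j0 j p : ℕ} (ha : 1 ≤ a) (hω : 0 < ω) (hp : p ∈ Pr a ω j0 j) :
    (a : ℝ) ^ ((j0 : ℝ) * ω) ≤ (p : ℝ) ∧ ¬ p ∣ a := by
  have ha1 : (1 : ℝ) ≤ a := by exact_mod_cast ha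
  obtain ⟨i, hi, _, hpi⟩ := mem_Pr.mp hp
  refine ⟨le_trans ?_ (mem_bx hpi).2.1, (mem_bx hpi).2.2.1⟩
  apply Real.rpow_le_rpow_of_exponent_le ha1
  apply mul_le_mul_of_nonneg_right _ hω.le
  exact_mod_cast hi

theorem Sp_Rg {a : ℕ} {ω : ℝ} {j0 j m : ℕ} (ha : 1 ≤ a) (hω : 0 < ω) (hm : Sp a ω j0 j m) :
    Rg a ((a : ℝ) ^ ((j0 : ℝ) * ω)) m :=
  ⟨hm.1, fun p hp hpm => mem_Pr_Rg ha hω (hm.2 p hp hpm)⟩

theorem hWFB : StWFB := by
  intro a j0 j ω x T B l ha hω hj hx hB h M N hM hN hMN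
  have ha1 : (1 : ℝ) ≤ a := by exact_mod_cast ha
  have ha0 : (0 : ℝ) < a := by linarith
  set t : ℝ := (a : ℝ) ^ (((j : ℝ) + 1) * ω) with ht
  have ht0 : 0 < t := Real.rpow_pos_of_pos ha0 _
  have ht1 : 1 ≤ t := Real.one_le_rpow ha1 (by positivity)
  have hax : t ≤ (a : ℝ) ^ x := Real.rpow_le_rpow_of_exponent_le ha1 hx
  have hMN' : M * N = (a : ℝ) ^ x * t := by rw [hMN, Real.rpow_add ha0]
  have hS : ∀ p ∈ bx a ω j, p.Prime ∧ (p : ℝ) ≤ t := fun p hp =>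
    ⟨(mem_bx hp).1, (mem_bx hp).2.2.2.le⟩
  have key : ∀ M N : ℝ, 1 ≤ N → M * N = (a : ℝ) ^ x * t → t ≤ M →
      Dec (Sp a ω j0 (j + 1)) M N T B (bm a ω j l) := by
    intro M N hN hMN hM
    have h1 := h (M / t) N (by rw [le_div_iff₀ ht0]; linarith) hN (by
      rw [div_mul_eq_mul_div, hMN, mul_div_assoc, div_self ht0.ne', mul_one])
    have h2 := Dec_mul (Sp a ω j0 j) (Sp a ω j0 (j + 1)) (bx a ω j) t (M / t) N B T l hB ht0.le hS
      (fun m hm p hp => not_dvd_Sp ha hω le_rfl hm hp) (fun m hm p hp => Sp_mul ha hω hj hm hp)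
      (fun m hm => Sp_mono (by omega) hm) h1
    rw [div_mul_cancel₀ _ ht0.ne'] at h2
    exact h2
  by_cases hMt : t ≤ M
  · exact key M N hN hMN' hMt
  · by_cases hNt : t ≤ N
    · exact Dec_comm (key N M hM (by rw [mul_comm]; exact hMN') hNt)
    · exfalso
      have h1 := not_le.mp hMt
      have h2 := not_le.mp hNt
      have h3 : M * N < t * t := mul_lt_mul h1 h2.le (by linarith) ht0.le
      have h4 : t * t ≤ (a : ℝ) ^ x * t := mul_le_mul_of_nonneg_right hax ht0.le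
      linarith

theorem hWFJ : StWFJ := by
  intro a j0 j j' ω x M N T B l ha hω hj hjj hB hN hM hMN h
  have ha1 : (1 : ℝ) ≤ a := by exact_mod_cast ha
  have ha0 : (0 : ℝ) < a := by linarith
  set t : ℝ := (a : ℝ) ^ (((j' : ℝ) + 1) * ω) with ht
  have ht0 : 0 < t := Real.rpow_pos_of_pos ha0 _
  have hMN' : M * N = (a : ℝ) ^ x * t := by rw [hMN, Real.rpow_add ha0]
  have h1 := h (M / t) N (by rw [le_div_iff₀ ht0]; linarith) hN (by
    rw [div_mul_eq_mul_div, hMN', mul_div_assoc, div_self ht0.ne', mul_one])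
  have h2 := Dec_mul (Sp a ω j0 j) (Rg a ((a : ℝ) ^ ((j0 : ℝ) * ω))) (bx a ω j') t (M / t) N B T l
    hB ht0.le (fun p hp => ⟨(mem_bx hp).1, (mem_bx hp).2.2.2.le⟩)
    (fun m hm p hp => not_dvd_Sp ha hω hjj hm hp) (fun m hm p hp => by
      have hnd := not_dvd_Sp ha hω hjj hm hp
      have hpp := (mem_bx hp).1
      have hcop : Nat.Coprime p m := (Nat.Prime.coprime_iff_not_dvd hpp).mpr hnd
      refine ⟨(Nat.squarefree_mul hcop).mpr ⟨hpp.prime.squarefree, hm.1⟩, ?_⟩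
      intro p' hp' hd
      rcases (hp'.dvd_mul).mp hd with h | h
      · rw [(Nat.prime_dvd_prime_iff_eq hp' hpp).mp h]
        exact mem_Pr_Rg ha hω (mem_Pr.mpr ⟨j', by omega, Nat.lt_succ_self _, hp⟩)
      · exact mem_Pr_Rg ha hω (hm.2 p' hp' h))
    (fun m hm => Sp_Rg ha hω hm) h1
  rw [div_mul_cancel₀ _ ht0.ne'] at h2
  exact h2

end Pool.Agent.Helper8.TW
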