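import Pool.Agent.Helper8.TW.M_WFB

/-! Module WFJ of project TW is `Pool.Agent.Helper8.TW.hWFJ` in `M_WFB.lean`. -/
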