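import Pool.Agent.Helper8.TW.M_WFB

/-! Module WFP of project TW: pairs of primes of one box. -/

set_option autoImplicit false

noncomputable section

namespace Pool.Agent.Helper8.TW

open Finset Filter Topology
open Pool.Agent.Helper9.TW

theorem pr2_ne_zero {a : ℕ} {ω : ℝ} {j q : ℕ} (h : pr2 a ω j q ≠ 0) :
    ∃ p ∈ bx a ω j, ∃ p' ∈ bx a ω j, p < p' ∧ q = p * p' := by
  classical
  by_contra h0
  apply h
  unfold pr2
  rw [if_neg h0]

theorem pr2_eq_one {a : ℕ} {ω : ℝ} {j q : ℕ}
    (h : ∃ p ∈ bx a ω j, ∃ p' ∈ bx a ω j, p < p' ∧ q = p * p') : pr2 a ω j q = 1 := by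
  classical
  unfold pr2
  rw [if_pos h]

theorem pr2_abs (a : ℕ) (ω : ℝ) (j q : ℕ) : |pr2 a ω j q| ≤ 1 := by
  classical
  unfold pr2
  split_ifs <;> simp

theorem pr2_zero (a : ℕ) (ω : ℝ) (j : ℕ) : pr2 a ω j 0 = 0 := by
  by_contra h
  obtain ⟨p, hp, p', hp', _, h0⟩ := pr2_ne_zero h
  have h1 := (mem_bx hp).1.ne_zero
  have h2 := (mem_bx hp').1.ne_zero
  rcases Nat.mul_eq_zero.mp h0.symm with h3 | h3
  · exact h1 h3
  · exact h2 h3

theorem Sp_prime {a : ℕ} {ω : ℝ} {j0 j p : ℕ} (hj : j0 ≤ j) (hp : p ∈ bx a ω j) :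
    Sp a ω j0 (j + 1) p := by
  refine ⟨(mem_bx hp).1.prime.squarefree, fun p' hp' h => ?_⟩
  rw [(Nat.prime_dvd_prime_iff_eq hp' (mem_bx hp).1).mp h]
  exact mem_Pr.mpr ⟨j, hj, by omega, hp⟩

theorem Sp_pair {a : ℕ} {ω : ℝ} {j0 j p p' : ℕ} (hj : j0 ≤ j) (hp : p ∈ bx a ω j)
    (hp' : p' ∈ bx a ω j) (hne : p ≠ p') : Sp a ω j0 (j + 1) (p * p') := by
  have h1 := (mem_bx hp).1
  have h2 := (mem_bx hp').1
  refine ⟨(Nat.squarefree_mul ((Nat.coprime_primes h1 h2).mpr hne)).mpr
    ⟨h1.prime.squarefree, h2.prime.squarefree⟩, fun r hr h => ?_⟩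
  rcases (hr.dvd_mul).mp h with h3 | h3
  · exact (Sp_prime hj hp).2 r hr h3
  · exact (Sp_prime hj hp').2 r hr h3

/-- the product of the two indicator functions -/
theorem cc_pair (a : ℕ) (ω : ℝ) (j q : ℕ) :
    cc (fun m => if m ∈ bx a ω j then 1 else 0) (fun m => if m ∈ bx a ω j then 1 / 2 else 0) q =
      pr2 a ω j q := by
  classical
  by_cases h : ∃ p ∈ bx a ω j, ∃ p' ∈ bx a ω j, p < p' ∧ q = p * p'
  · rw [pr2_eq_one h]
    obtain ⟨p, hp, p', hp', hlt, rfl⟩ := h
    have h1 := (mem_bx hp).1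
    have h2 := (mem_bx hp').1
    have hcop : Nat.Coprime p p' := (Nat.coprime_primes h1 h2).mpr hlt.ne
    unfold cc
    have hsub : ({(p, p'), (p', p)} : Finset (ℕ × ℕ)) ⊆
        (p * p').divisorsAntidiagonal.filter (fun x => Nat.Coprime x.1 x.2) := by
      intro x hx
      simp only [mem_insert, mem_singleton] at hx
      simp only [mem_filter, Nat.mem_divisorsAntidiagonal]
      rcases hx with rfl | rfl
      · exact ⟨⟨rfl, mul_ne_zero h1.ne_zero h2.ne_zero⟩, hcop⟩
      · exact ⟨⟨mul_comm _ _, mul_ne_zero h1.ne_zero h2.ne_zero⟩, hcop.symm⟩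
    rw [← Finset.sum_subset hsub]
    · rw [Finset.sum_pair]
      · simp only [if_pos hp, if_pos hp']
        norm_num
      · intro h
        rw [Prod.mk.injEq] at h
        exact hlt.ne h.1
    · rintro ⟨u, v⟩ hx hn
      simp only [mem_filter, Nat.mem_divisorsAntidiagonal] at hx
      simp only [mem_insert, mem_singleton, Prod.mk.injEq, not_or, not_and] at hn
      by_cases hu : u ∈ bx a ω j
      · have hu1 := (mem_bx hu).1
        have hd : u ∣ p * p' := Dvd.intro _ hx.1.1
        exfalso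
        rcases (hu1.dvd_mul).mp hd with h3 | h3
        · have h4 := (Nat.prime_dvd_prime_iff_eq hu1 h1).mp h3
          subst h4
          exact hn.1 rfl (Nat.eq_of_mul_eq_mul_left h1.pos hx.1.1)
        · have h4 := (Nat.prime_dvd_prime_iff_eq hu1 h2).mp h3
          subst h4
          refine hn.2 rfl (Nat.eq_of_mul_eq_mul_left h2.pos ?_)
          rw [hx.1.1, mul_comm]
      · simp [if_neg hu]
  · have h0 : pr2 a ω j q = 0 := by
      unfold pr2
      rw [if_neg h]
    rw [h0]
    unfold cc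
    apply Finset.sum_eq_zero
    rintro ⟨u, v⟩ hx
    simp only [mem_filter, Nat.mem_divisorsAntidiagonal] at hx
    by_cases hu : u ∈ bx a ω j
    · by_cases hv : v ∈ bx a ω j
      · exfalso
        have hne : u ≠ v := by
          rintro rfl
          have := hx.2
          rw [Nat.coprime_self] at this
          exact (mem_bx hu).1.one_lt.ne' this
        apply h
        rcases lt_or_gt_of_ne hne with h3 | h3
        · exact ⟨u, hu, v, hv, h3, hx.1.1.symm⟩
        · exact ⟨v, hv, u, hu, h3, by rw [mul_comm]; exact hx.1.1.symm⟩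
      · simp [if_neg hv]
    · simp [if_neg hu]

theorem hWFP : StWFP := by
  classical
  intro a j0 j ω x ha hω hj hx M N hM hN hMN
  have ha1 : (1 : ℝ) ≤ a := by exact_mod_cast ha
  have ha0 : (0 : ℝ) < a := by linarith
  set t : ℝ := (a : ℝ) ^ (((j : ℝ) + 1) * ω) with ht
  have ht0 : 0 < t := Real.rpow_pos_of_pos ha0 _
  have ht1 : 1 ≤ t := Real.one_le_rpow ha1 (by positivity)
  have hax : t * t * t ≤ (a : ℝ) ^ x := by
    have h1 : t * t * t = (a : ℝ) ^ (3 * (((j : ℝ) + 1) * ω)) := by
      rw [ht, ← Real.rpow_add ha0, ← Real.rpow_add ha0]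
      congr 1; ring
    rw [h1]
    exact Real.rpow_le_rpow_of_exponent_le ha1 hx
  have key : ∀ M N : ℝ, 1 ≤ N → t * t ≤ M → Dec (Sp a ω j0 (j + 1)) M N 1 1 (pr2 a ω j) := by
    intro M N hN hM
    refine ⟨fun _ => pr2 a ω j, fun _ m => if m = 1 then 1 else 0, ?_, ?_, ?_, ?_⟩
    · intro s m
      refine ⟨pr2_abs a ω j m, ?_⟩
      show |(if m = 1 then (1:ℝ) else 0)| ≤ 1
      split_ifs <;> simp
    · intro s m hm
      obtain ⟨p, hp, p', hp', hlt, rfl⟩ := pr2_ne_zero hm
      refine ⟨Sp_pair hj hp hp' hlt.ne, le_trans ?_ hM⟩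
      push_cast
      exact mul_le_mul (mem_bx hp).2.2.2.le (mem_bx hp').2.2.2.le (Nat.cast_nonneg _) ht0.le
    · intro s m h
      have hm : m = 1 := by
        by_contra h0
        exact h (by simp only [if_neg h0])
      subst hm
      exact ⟨Sp_one a ω j0 (j + 1), by simpa using hN⟩
    · intro q
      rw [Finset.sum_range_one, cc_delta _ (pr2_zero a ω j)]
  by_cases h1 : t * t ≤ M
  · exact key M N hN h1
  · by_cases h2 : t * t ≤ N
    · exact Dec_comm (key N M hM h2)
    · have h1' := not_le.mp h1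
      have h2' := not_le.mp h2
      have hMt : t ≤ M := by
        by_contra h3
        have h3' := not_le.mp h3
        have : M * N < t * (t * t) := mul_lt_mul h3' h2'.le (by linarith) ht0.le
        rw [hMN] at this
        linarith
      have hNt : t ≤ N := by
        by_contra h3
        have h3' := not_le.mp h3
        have : M * N < (t * t) * t := mul_lt_mul'' h1' h3' (by linarith) (by linarith)
        rw [hMN] at this
        linarith
      refine ⟨fun _ m => if m ∈ bx a ω j then 1 else 0, fun _ m => if m ∈ bx a ω j then 1 / 2 else 0,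
        ?_, ?_, ?_, ?_⟩
      · intro s m
        show |(if m ∈ bx a ω j then (1:ℝ) else 0)| ≤ 1 ∧ |(if m ∈ bx a ω j then (1/2:ℝ) else 0)| ≤ 1
        split_ifs
        · constructor
          · simp
          · rw [abs_of_nonneg (by norm_num)]; norm_num
        · simp
      · intro s m h
        have hm : m ∈ bx a ω j := by
          by_contra h0
          exact h (by simp only [if_neg h0])
        exact ⟨Sp_prime hj hm, (mem_bx hm).2.2.2.le.trans hMt⟩
      · intro s m h
        have hm : m ∈ bx a ω j := by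
          by_contra h0
          exact h (by simp only [if_neg h0])
        exact ⟨Sp_prime hj hm, (mem_bx hm).2.2.2.le.trans hNt⟩
      · intro q
        rw [Finset.sum_range_one]
        exact (cc_pair a ω j q).symm

end Pool.Agent.Helper8.TW
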