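import Pool.Agent.Helper9.TW.St

/-! Modules WFS and WFX of project TW: formal properties of well factorable weights. -/

set_option autoImplicit false

noncomputable section

namespace Pool.Agent.Helper8.TW

open Finset Filter Topology
open Pool.Agent.Helper9.TW

theorem cc_zero_arg (f g : ℕ → ℝ) : cc f g 0 = 0 := by
  simp [cc]

theorem cc_comm (f g : ℕ → ℝ) (q : ℕ) : cc f g q = cc g f q := by
  unfold cc
  refine Finset.sum_bij' (fun x _ => (x.2, x.1)) (fun x _ => (x.2, x.1)) ?_ ?_ ?_ ?_ ?_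
  · rintro ⟨u, v⟩ h
    simp only [mem_filter, Nat.mem_divisorsAntidiagonal] at h ⊢
    exact ⟨⟨by rw [mul_comm]; exact h.1.1, h.1.2⟩, h.2.symm⟩
  · rintro ⟨u, v⟩ h
    simp only [mem_filter, Nat.mem_divisorsAntidiagonal] at h ⊢
    exact ⟨⟨by rw [mul_comm]; exact h.1.1, h.1.2⟩, h.2.symm⟩
  · rintro ⟨u, v⟩ _; rfl
  · rintro ⟨u, v⟩ _; rfl
  · rintro ⟨u, v⟩ _
    exact mul_comm _ _

theorem Dec_comm {P : ℕ → Prop} {M N : ℝ} {T : ℕ} {B : ℝ} {l : ℕ → ℝ} (h : Dec P M N T B l) :
    Dec P N M T B l := by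
  obtain ⟨al, be, h1, h2, h3, h4⟩ := h
  refine ⟨be, al, fun t m => ⟨(h1 t m).2, (h1 t m).1⟩, h3, h2, fun q => ?_⟩
  rw [h4 q]
  exact Finset.sum_congr rfl fun t _ => cc_comm _ _ _

theorem Dec_mono {P P' : ℕ → Prop} {M N M' N' : ℝ} {T : ℕ} {B : ℝ} {l : ℕ → ℝ}
    (hP : ∀ m, P m → P' m) (hM : M ≤ M') (hN : N ≤ N') (h : Dec P M N T B l) :
    Dec P' M' N' T B l := by
  obtain ⟨al, be, h1, h2, h3, h4⟩ := h
  exact ⟨al, be, h1, fun t m hm => ⟨hP m (h2 t m hm).1, (h2 t m hm).2.trans hM⟩,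
    fun t m hm => ⟨hP m (h3 t m hm).1, (h3 t m hm).2.trans hN⟩, h4⟩

theorem Pr_mono (a : ℕ) (ω : ℝ) (j0 : ℕ) {j j' : ℕ} (h : j ≤ j') :
    Pr a ω j0 j ⊆ Pr a ω j0 j' := by
  unfold Pr
  exact Finset.biUnion_subset_biUnion_of_subset_left _ (Finset.Ico_subset_Ico_right h)

theorem Sp_mono {a : ℕ} {ω : ℝ} {j0 j j' m : ℕ} (h : j ≤ j') (hm : Sp a ω j0 j m) :
    Sp a ω j0 j' m :=
  ⟨hm.1, fun p hp hpm => Pr_mono a ω j0 h (hm.2 p hp hpm)⟩

theorem Sp_one (a : ℕ) (ω : ℝ) (j0 j : ℕ) : Sp a ω j0 j 1 :=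
  ⟨squarefree_one, fun _ hp h => absurd (Nat.dvd_one.mp h) hp.one_lt.ne'⟩

theorem Sp_ne_zero {a : ℕ} {ω : ℝ} {j0 j m : ℕ} (hm : Sp a ω j0 j m) : m ≠ 0 :=
  hm.1.ne_zero

/-- the delta function at `1` is neutral -/
theorem cc_delta (f : ℕ → ℝ) (hf : f 0 = 0) (q : ℕ) :
    cc f (fun m => if m = 1 then 1 else 0) q = f q := by
  rcases Nat.eq_zero_or_pos q with h | h
  · subst h
    rw [cc_zero_arg, hf]
  · unfold cc
    rw [Finset.sum_eq_single (q, 1)]
    · simp
    · rintro ⟨u, v⟩ hx hne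
      simp only [mem_filter, Nat.mem_divisorsAntidiagonal] at hx
      have : v ≠ 1 := by
        rintro rfl
        apply hne
        rw [← hx.1.1, mul_one]
      simp [this]
    · intro hx
      exfalso
      apply hx
      simp [h.ne']

theorem hWFS : StWFS := by
  intro a j0 j ω x ha hj
  have ha1 : (1 : ℝ) ≤ a := by exact_mod_cast ha
  have ha0 : (0 : ℝ) < a := by linarith
  refine ⟨?_, ?_, ?_, ?_, ?_, ?_⟩
  · intro T₁ T₂ B₁ B₂ l₁ l₂ h₁ h₂ M N hM hN hMN
    obtain ⟨al, be, e1, e2, e3, e4⟩ := h₁ M N hM hN hMN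
    obtain ⟨al', be', f1, f2, f3, f4⟩ := h₂ M N hM hN hMN
    refine ⟨fun t m => if t < T₁ then al t m else al' (t - T₁) m,
      fun t m => if t < T₁ then be t m else be' (t - T₁) m, ?_, ?_, ?_, ?_⟩
    · intro t m
      by_cases ht : t < T₁
      · simp only [if_pos ht]
        exact ⟨(e1 t m).1.trans (le_max_left _ _), (e1 t m).2.trans (le_max_left _ _)⟩
      · simp only [if_neg ht]
        exact ⟨(f1 _ m).1.trans (le_max_right _ _), (f1 _ m).2.trans (le_max_right _ _)⟩
    · intro t m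
      by_cases ht : t < T₁
      · simp only [if_pos ht]
        exact e2 t m
      · simp only [if_neg ht]
        exact f2 _ m
    · intro t m
      by_cases ht : t < T₁
      · simp only [if_pos ht]
        exact e3 t m
      · simp only [if_neg ht]
        exact f3 _ m
    · intro q
      show l₁ q + l₂ q = _
      rw [Finset.sum_range_add, e4 q, f4 q]
      congr 1
      · refine Finset.sum_congr rfl fun t ht => ?_
        simp only [if_pos (Finset.mem_range.mp ht)]
      · refine Finset.sum_congr rfl fun t _ => ?_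
        have h1 : ¬ (T₁ + t < T₁) := by omega
        have h2 : T₁ + t - T₁ = t := by omega
        simp only [if_neg h1, h2]
  · intro T B l h M N hM hN hMN
    obtain ⟨al, be, e1, e2, e3, e4⟩ := h M N hM hN hMN
    refine ⟨fun t m => - al t m, be, ?_, ?_, e3, ?_⟩
    · intro t m
      rw [abs_neg]
      exact e1 t m
    · intro t m hm
      exact e2 t m (fun h0 => hm (by simp only [h0, neg_zero]))
    · intro q
      simp only
      rw [e4 q, ← Finset.sum_neg_distrib]
      refine Finset.sum_congr rfl fun t _ => ?_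
      unfold cc
      rw [← Finset.sum_neg_distrib]
      exact Finset.sum_congr rfl fun y _ => by ring
  · intro T B x' l hx hxx h M N hM hN hMN
    have hax : (a : ℝ) ^ x' = (a : ℝ) ^ x * (a : ℝ) ^ (x' - x) := by
      rw [← Real.rpow_add ha0]; congr 1; ring
    have hpos : 0 < (a : ℝ) ^ (x' - x) := Real.rpow_pos_of_pos ha0 _
    have hge : 1 ≤ (a : ℝ) ^ (x' - x) := Real.one_le_rpow ha1 (by linarith)
    have hge' : 1 ≤ (a : ℝ) ^ x := Real.one_le_rpow ha1 hx
    by_cases hMx : (a : ℝ) ^ (x' - x) ≤ M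
    · have h1 := h (M / (a : ℝ) ^ (x' - x)) N (by rw [le_div_iff₀ hpos]; linarith) hN (by
        rw [div_mul_eq_mul_div, hMN, hax, mul_div_assoc, div_self hpos.ne', mul_one])
      exact Dec_mono (fun _ h => h) (div_le_self (by linarith) hge) le_rfl h1
    · have hMx' := not_le.mp hMx
      have h1 := h 1 ((a : ℝ) ^ x) le_rfl hge' (one_mul _)
      refine Dec_mono (fun _ h => h) hM ?_ h1
      by_contra hcon
      have hcon' := not_le.mp hcon
      have h2 : M * N < (a : ℝ) ^ (x' - x) * (a : ℝ) ^ x :=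
        mul_lt_mul hMx' hcon'.le (by linarith) hpos.le
      rw [hMN, hax] at h2
      linarith
  · intro T j' B l hjj h M N hM hN hMN
    exact Dec_mono (fun m hm => Sp_mono hjj hm) le_rfl le_rfl (h M N hM hN hMN)
  · intro M N hM hN hMN
    refine ⟨fun _ _ => 0, fun _ _ => 0, ?_, ?_, ?_, ?_⟩
    · intro t m; simp
    · intro t m h; exact absurd rfl h
    · intro t m h; exact absurd rfl h
    · intro q; simp
  · intro hx M N hM hN hMN
    refine ⟨fun _ m => if m = 1 then 1 else 0, fun _ m => if m = 1 then 1 else 0, ?_, ?_, ?_, ?_⟩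
    · intro t m
      show |(if m = 1 then (1:ℝ) else 0)| ≤ 1 ∧ |(if m = 1 then (1:ℝ) else 0)| ≤ 1
      split_ifs <;> simp
    · intro t m h
      have hm : m = 1 := by
        by_contra h0
        exact h (by simp only [if_neg h0])
      subst hm
      exact ⟨Sp_one a ω j0 j, by simpa using hM⟩
    · intro t m h
      have hm : m = 1 := by
        by_contra h0
        exact h (by simp only [if_neg h0])
      subst hm
      exact ⟨Sp_one a ω j0 j, by simpa using hN⟩
    · intro q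
      rw [Finset.sum_range_one, cc_delta _ (by simp)]

theorem hWFX : StWFX := by
  intro a j0 j ω x T B l ha hx h q hq
  have ha1 : (1 : ℝ) ≤ a := by exact_mod_cast ha
  obtain ⟨al, be, e1, e2, e3, e4⟩ := h ((a : ℝ) ^ x) 1 (Real.one_le_rpow ha1 hx) le_rfl (mul_one _)
  rw [e4 q] at hq
  obtain ⟨t, _, ht⟩ := Finset.exists_ne_zero_of_sum_ne_zero hq
  unfold cc at ht
  obtain ⟨⟨u, v⟩, hy, hne⟩ := Finset.exists_ne_zero_of_sum_ne_zero ht
  simp only [mem_filter, Nat.mem_divisorsAntidiagonal] at hy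
  have hu := e2 t u (left_ne_zero_of_mul hne)
  have hv := e3 t v (right_ne_zero_of_mul hne)
  have hv1 : v ≤ 1 := by exact_mod_cast hv.2
  have hv0 := Sp_ne_zero hv.1
  have hv2 : v = 1 := by omega
  subst hv2
  rw [← hy.1.1, mul_one]
  exact hu

end Pool.Agent.Helper8.TW
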