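import Pool.Agent.Helper8.TW.M_WFS

/-! Module WFX of project TW is `Pool.Agent.Helper8.TW.hWFX` in `M_WFS.lean`. -/
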